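import Mathlib
import Pool.Agent.Helper95.BSDEDefs
import Pool.Agent.Helper95.BSDEMod

set_option autoImplicit false

open MeasureTheory ProbabilityTheory
open scoped NNReal ENNReal

namespace Pool.Agent.Results.MP_a80562_pr.Disproof

open Pool.Agent.Helper95.BSDE

universe u

/-- **Disproof of Q1.** On every probability space carrying a two-dimensional Brownian motion `B`
and for every horizon `T > 0` there is a terminal value `ξ` (measurable for the completed natural
filtration at `T`, with all exponential moments) for which the BSDE with generator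
`|z 0|² - |z 1|²` has two solutions `(Y, Z)`, `(Y', Z')`, both with `exp (μ |Y|)` of class (D) for
every `μ > 0`, and with different deterministic initial values `Y 0 ≠ Y' 0`. -/
theorem result {Ω : Type u} {mΩ : MeasurableSpace Ω} (P : Measure Ω) [IsProbabilityMeasure P]
    (B : Fin 2 → ℝ≥0 → Ω → ℝ) (hB : IsBM2 B P) (T : ℝ≥0) (hT : 0 < T) :
    ∃ (ξ : Ω → ℝ) (Y Y' : ℝ≥0 → Ω → ℝ) (Z Z' : Fin 2 → ℝ≥0 → Ω → ℝ),
      Measurable[augFiltration B P hB.meas T] ξ ∧
      (∀ μ : ℝ, 0 < μ → Integrable (fun ω => Real.exp (μ * |ξ ω|)) P) ∧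
      IsSolution (augFiltration B P hB.meas) P B T ξ Y Z ∧
      IsSolution (augFiltration B P hB.meas) P B T ξ Y' Z' ∧
      (∀ μ : ℝ, 0 < μ →
        ClassD (augFiltration B P hB.meas) P T (fun t ω => Real.exp (μ * |Y t ω|))) ∧
      (∀ μ : ℝ, 0 < μ →
        ClassD (augFiltration B P hB.meas) P T (fun t ω => Real.exp (μ * |Y' t ω|))) ∧
      ∃ r r' : ℝ, r ≠ r' ∧ (∀ ω, Y 0 ω = r) ∧ (∀ ω, Y' 0 ω = r') :=
  main hB hT

end Pool.Agent.Results.MP_a80562_pr.Disproof
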